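import Pool.Agent.H55.BP.Targets

/-!
# Biplanar drawings: the drawings of a template (row PRM)
-/

set_option autoImplicit false

open Finset

namespace Pool.Agent.H4.BPL

open Pool.Agent.H55.BP

/-- an integer point -/
noncomputable def cp (a : ℤ × ℤ) : ℂ := ⟨(a.1 : ℝ), (a.2 : ℝ)⟩

/-- an integer point moved to the right -/
noncomputable def cps (a : ℤ × ℤ) (s : ℝ) : ℂ := ⟨(a.1 : ℝ) + s, (a.2 : ℝ)⟩

theorem ori_swap (a b c : ℂ) : ori b a c = - ori a b c := by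
  unfold ori
  ring

theorem ori_rev (a b c : ℂ) : ori c b a = - ori a b c := by
  unfold ori
  ring

theorem pos_of_corners {f : ℤ → ℤ → ℤ} (h : pos4 f) {s t : ℝ} (hs0 : 0 ≤ s) (hs1 : s ≤ 1)
    (ht0 : 0 ≤ t) (ht1 : t ≤ 1) :
    0 < (1 - s) * (1 - t) * (f 0 0 : ℝ) + (1 - s) * t * (f 0 1 : ℝ) +
      s * (1 - t) * (f 1 0 : ℝ) + s * t * (f 1 1 : ℝ) := by
  obtain ⟨h1, h2, h3, h4⟩ := h
  have h1' : (0 : ℝ) < f 0 0 := by exact_mod_cast h1
  have h2' : (0 : ℝ) < f 0 1 := by exact_mod_cast h2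
  have h3' : (0 : ℝ) < f 1 0 := by exact_mod_cast h3
  have h4' : (0 : ℝ) < f 1 1 := by exact_mod_cast h4
  set e : ℝ := min (min (f 0 0 : ℝ) (f 0 1)) (min (f 1 0 : ℝ) (f 1 1)) with he
  have he0 : 0 < e := lt_min (lt_min h1' h2') (lt_min h3' h4')
  have a1 : e ≤ f 0 0 := (min_le_left _ _).trans (min_le_left _ _)
  have a2 : e ≤ f 0 1 := (min_le_left _ _).trans (min_le_right _ _)
  have a3 : e ≤ f 1 0 := (min_le_right _ _).trans (min_le_left _ _)
  have a4 : e ≤ f 1 1 := (min_le_right _ _).trans (min_le_right _ _)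
  have b1 : (1 - s) * (1 - t) * e ≤ (1 - s) * (1 - t) * (f 0 0 : ℝ) :=
    mul_le_mul_of_nonneg_left a1 (mul_nonneg (by linarith) (by linarith))
  have b2 : (1 - s) * t * e ≤ (1 - s) * t * (f 0 1 : ℝ) :=
    mul_le_mul_of_nonneg_left a2 (mul_nonneg (by linarith) ht0)
  have b3 : s * (1 - t) * e ≤ s * (1 - t) * (f 1 0 : ℝ) :=
    mul_le_mul_of_nonneg_left a3 (mul_nonneg hs0 (by linarith))
  have b4 : s * t * e ≤ s * t * (f 1 1 : ℝ) :=
    mul_le_mul_of_nonneg_left a4 (mul_nonneg hs0 ht0)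
  have b5 : (1 - s) * (1 - t) * e + (1 - s) * t * e + s * (1 - t) * e + s * t * e = e := by ring
  linarith

theorem ori_bb_pos {a b c : ℤ × ℤ} (h : pos4 (fun s t => oriZ a (sh b s) (sh c t))) {s t : ℝ}
    (hs0 : 0 ≤ s) (hs1 : s ≤ 1) (ht0 : 0 ≤ t) (ht1 : t ≤ 1) :
    0 < ori (cp a) (cps b s) (cps c t) := by
  refine lt_of_lt_of_eq (pos_of_corners h hs0 hs1 ht0 ht1) ?_
  simp only [ori, oriZ, sh, cp, cps]
  push_cast
  ring

theorem ori_bb_neg {a b c : ℤ × ℤ} (h : pos4 (fun s t => - oriZ a (sh b s) (sh c t))) {s t : ℝ}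
    (hs0 : 0 ≤ s) (hs1 : s ≤ 1) (ht0 : 0 ≤ t) (ht1 : t ≤ 1) :
    ori (cp a) (cps b s) (cps c t) < 0 := by
  have h1 := pos_of_corners h hs0 hs1 ht0 ht1
  rw [← neg_pos]
  refine lt_of_lt_of_eq h1 ?_
  simp only [ori, oriZ, sh, cp, cps]
  push_cast
  ring

theorem ori_bw_pos {a b c : ℤ × ℤ} (h : pos4 (fun s _ => oriZ a (sh b s) c)) {s : ℝ}
    (hs0 : 0 ≤ s) (hs1 : s ≤ 1) : 0 < ori (cp a) (cps b s) (cp c) := by
  refine lt_of_lt_of_eq (pos_of_corners h hs0 hs1 le_rfl zero_le_one) ?_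
  simp only [ori, oriZ, sh, cp, cps]
  push_cast
  ring

theorem ori_bw_neg {a b c : ℤ × ℤ} (h : pos4 (fun s _ => - oriZ a (sh b s) c)) {s : ℝ}
    (hs0 : 0 ≤ s) (hs1 : s ≤ 1) : ori (cp a) (cps b s) (cp c) < 0 := by
  have h1 := pos_of_corners h hs0 hs1 le_rfl zero_le_one
  rw [← neg_pos]
  refine lt_of_lt_of_eq h1 ?_
  simp only [ori, oriZ, sh, cp, cps]
  push_cast
  ring

theorem ori_same (a b : ℤ × ℤ) (s t : ℝ) :
    ori (cp a) (cps b s) (cps b t) = ((b.2 : ℝ) - a.2) * (s - t) := by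
  simp only [ori, cp, cps]
  ring

section template

variable {n p : ℕ} [NeZero p] (T : Tmpl n p) (m : ℕ)

/-- the points of the template -/
noncomputable def pnt : Fin n ⊕ Fin m → ℂ
  | Sum.inl i => cp (T.w i)
  | Sum.inr j => cps (T.b (ty p j.val)) ((j.val : ℝ) / m)

theorem st_nonneg (j : Fin m) : 0 ≤ (j.val : ℝ) / m := by positivity

theorem st_lt (j : Fin m) : (j.val : ℝ) / m < 1 := by
  have h1 : (j.val : ℝ) < m := by exact_mod_cast j.isLt
  have h2 : (0 : ℝ) < m := lt_of_le_of_lt (Nat.cast_nonneg _) h1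
  rw [div_lt_one h2]
  exact h1

theorem st_mono {j j' : Fin m} (h : j < j') : (j.val : ℝ) / m < (j'.val : ℝ) / m := by
  have h1 : (j'.val : ℝ) < m := by exact_mod_cast j'.isLt
  have h2 : (0 : ℝ) < m := lt_of_le_of_lt (Nat.cast_nonneg _) h1
  have h3 : (j.val : ℝ) < j'.val := by exact_mod_cast h
  exact div_lt_div_of_pos_right h3 h2

variable {T} {C : Finset (Fin p)} (hT : T.Ok C)
include hT

theorem pnt_inj : Function.Injective (pnt T m) := by
  have hwb : ∀ i j, pnt T m (Sum.inl i) ≠ pnt T m (Sum.inr j) := by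
    intro i j h
    have h1 := congrArg Complex.im h
    have h2 : ((T.w i).2 : ℝ) = ((T.b (ty p j.val)).2 : ℝ) := h1
    exact hT.wb i (ty p j.val) (by exact_mod_cast h2)
  rintro (i | j) (i' | j') h
  · by_contra hne
    have hne' : i ≠ i' := fun hh => hne (by rw [hh])
    apply hT.ww i i' hne'
    have h1 : ((T.w i).1 : ℝ) = ((T.w i').1 : ℝ) := congrArg Complex.re h
    have h2 : ((T.w i).2 : ℝ) = ((T.w i').2 : ℝ) := congrArg Complex.im h
    exact Prod.ext (by exact_mod_cast h1) (by exact_mod_cast h2)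
  · exact absurd h (hwb i j')
  · exact absurd h.symm (hwb i' j)
  · have h1 : ((T.b (ty p j.val)).1 : ℝ) + (j.val : ℝ) / m =
        ((T.b (ty p j'.val)).1 : ℝ) + (j'.val : ℝ) / m := congrArg Complex.re h
    have h2 : ((T.b (ty p j.val)).2 : ℝ) = ((T.b (ty p j'.val)).2 : ℝ) :=
      congrArg Complex.im h
    have a1 := st_nonneg m j
    have a2 := st_nonneg m j'
    have a3 := st_lt m j
    have a4 := st_lt m j'
    by_cases hk : ty p j.val = ty p j'.val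
    · rw [hk] at h1
      have h3 : (j.val : ℝ) / m = (j'.val : ℝ) / m := by linarith
      rcases lt_trichotomy j j' with h4 | h4 | h4
      · exact absurd h3 (st_mono m h4).ne
      · rw [h4]
      · exact absurd h3 (st_mono m h4).ne'
    · exfalso
      rcases hT.bb _ _ hk with h3 | h3 | h3
      · exact h3 (by exact_mod_cast h2)
      · have h4 : ((T.b (ty p j.val)).1 : ℝ) + 1 < ((T.b (ty p j'.val)).1 : ℝ) := by
          exact_mod_cast h3
        linarith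
      · have h4 : ((T.b (ty p j'.val)).1 : ℝ) + 1 < ((T.b (ty p j.val)).1 : ℝ) := by
          exact_mod_cast h3
        linarith

theorem beta_ne (i : Fin n) (k : Fin p) : ((T.b k).2 : ℝ) - (T.w i).2 ≠ 0 := by
  intro h
  apply hT.wb i k
  have h1 : ((T.w i).2 : ℝ) = (T.b k).2 := by linarith
  exact_mod_cast h1

theorem ori_ne_wb (i : Fin n) (j : Fin m) (hN : T.N (ty p j.val) i = true)
    (x : Fin n ⊕ Fin m) (h1 : x ≠ Sum.inl i) (h2 : x ≠ Sum.inr j) :
    ori (pnt T m (Sum.inl i)) (pnt T m (Sum.inr j)) (pnt T m x) ≠ 0 := by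
  have a1 := st_nonneg m j
  have a3 := (st_lt m j).le
  rcases x with i' | j'
  · have hne : i ≠ i' := fun h => h1 (by rw [h])
    rcases hT.ow _ i i' hN hne with h | h
    · exact (ori_bw_pos h a1 a3).ne'
    · exact (ori_bw_neg h a1 a3).ne
  · have hne : j ≠ j' := fun h => h2 (by rw [h])
    have a2 := st_nonneg m j'
    have a4 := (st_lt m j').le
    by_cases hk : ty p j.val = ty p j'.val
    · have h3 : ori (pnt T m (Sum.inl i)) (pnt T m (Sum.inr j)) (pnt T m (Sum.inr j')) =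
          (((T.b (ty p j.val)).2 : ℝ) - (T.w i).2) * ((j.val : ℝ) / m - (j'.val : ℝ) / m) := by
        rw [← ori_same]
        show ori _ _ (cps (T.b (ty p j'.val)) _) = _
        rw [← hk]
        rfl
      rw [h3]
      refine mul_ne_zero (beta_ne hT i _) ?_
      rcases lt_trichotomy j j' with h4 | h4 | h4
      · have := st_mono m h4
        exact (by linarith : (j.val : ℝ) / m - (j'.val : ℝ) / m < 0).ne
      · exact absurd h4 hne
      · have := st_mono m h4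
        exact (by linarith : 0 < (j.val : ℝ) / m - (j'.val : ℝ) / m).ne'
    · rcases hT.ob _ _ i hN hk with h | h
      · exact (ori_bb_pos h a1 a3 a2 a4).ne'
      · exact (ori_bb_neg h a1 a3 a2 a4).ne

/-- the pair of edges `i j`, `i' j'` -/
def pr {n m : ℕ} (i : Fin n) (j : Fin m) (i' : Fin n) (j' : Fin m) :
    Sym2 (Sym2 (Fin n ⊕ Fin m)) :=
  s(s(Sum.inl i, Sum.inr j), s(Sum.inl i', Sum.inr j'))

omit hT in
/-- the remaining pairs -/
def Rl (T : Tmpl n p) (m : ℕ) (x : Sym2 (Sym2 (Fin n ⊕ Fin m))) (q : Fin m × Fin m) : Prop :=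
  ∃ i i', i ≠ i' ∧ T.N (ty p q.1.val) i = true ∧ T.N (ty p q.1.val) i' = true ∧
    x = pr i q.1 i' q.2 ∧
    ((0 < ((T.b (ty p q.1.val)).2 : ℝ) - (T.w i).2 ∧
      0 < ((T.b (ty p q.1.val)).2 : ℝ) - (T.w i').2 ∧
      0 < ori (pnt T m (Sum.inl i)) (pnt T m (Sum.inr q.1)) (pnt T m (Sum.inl i'))) ∨
    (((T.b (ty p q.1.val)).2 : ℝ) - (T.w i).2 < 0 ∧
      ((T.b (ty p q.1.val)).2 : ℝ) - (T.w i').2 < 0 ∧
      ori (pnt T m (Sum.inl i)) (pnt T m (Sum.inr q.1)) (pnt T m (Sum.inl i')) < 0))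

omit [NeZero p] in
theorem same_side {i i' : Fin n} {k : Fin p}
    (h : (0 < ((T.b k).2 : ℝ) - (T.w i).2 ∧ 0 < ((T.b k).2 : ℝ) - (T.w i').2) ∨
      (((T.b k).2 : ℝ) - (T.w i).2 < 0 ∧ ((T.b k).2 : ℝ) - (T.w i').2 < 0)) :
    ((T.w i).2 < (T.b k).2 ↔ (T.w i').2 < (T.b k).2) := by
  have e1 : (T.w i).2 < (T.b k).2 ↔ 0 < ((T.b k).2 : ℝ) - (T.w i).2 := by
    rw [sub_pos]
    exact_mod_cast Iff.rfl
  have e2 : (T.w i').2 < (T.b k).2 ↔ 0 < ((T.b k).2 : ℝ) - (T.w i').2 := by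
    rw [sub_pos]
    exact_mod_cast Iff.rfl
  rw [e1, e2]
  rcases h with ⟨h1, h2⟩ | ⟨h1, h2⟩
  · exact ⟨fun _ => h2, fun _ => h1⟩
  · exact ⟨fun h => absurd h (not_lt.2 h1.le), fun h => absurd h (not_lt.2 h2.le)⟩

theorem Rl_unique {x y : Sym2 (Sym2 (Fin n ⊕ Fin m))} {q : Fin m × Fin m} (hx : Rl T m x q)
    (hy : Rl T m y q) : x = y := by
  obtain ⟨i, i', hne, hN, hN', rfl, hs⟩ := hx
  obtain ⟨e, e', hne2, hM, hM', rfl, hr⟩ := hy
  have s1 : ((T.w i).2 < (T.b (ty p q.1.val)).2 ↔ (T.w i').2 < (T.b (ty p q.1.val)).2) :=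
    same_side hT (hs.imp (fun h => ⟨h.1, h.2.1⟩) (fun h => ⟨h.1, h.2.1⟩))
  have s2 : ((T.w e).2 < (T.b (ty p q.1.val)).2 ↔ (T.w e').2 < (T.b (ty p q.1.val)).2) :=
    same_side hT (hr.imp (fun h => ⟨h.1, h.2.1⟩) (fun h => ⟨h.1, h.2.1⟩))
  have hcase : (i = e ∧ i' = e') ∨ (i = e' ∧ i' = e) := by
    rcases lt_or_gt_of_ne hne with h1 | h1 <;> rcases lt_or_gt_of_ne hne2 with h2 | h2
    · exact Or.inl (hT.sd _ i i' e e' hN hN' h1 hM hM' h2 s1 s2)
    · exact Or.inr (hT.sd _ i i' e' e hN hN' h1 hM' hM h2 s1 s2.symm)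
    · have := hT.sd _ i' i e e' hN' hN h1 hM hM' h2 s1.symm s2
      exact Or.inr ⟨this.2, this.1⟩
    · have := hT.sd _ i' i e' e hN' hN h1 hM' hM h2 s1.symm s2.symm
      exact Or.inl ⟨this.2, this.1⟩
  rcases hcase with ⟨rfl, rfl⟩ | ⟨rfl, rfl⟩
  · rfl
  · exfalso
    rw [ori_rev (pnt T m (Sum.inl i))] at hr
    rcases hs with h1 | h1 <;> rcases hr with h2 | h2 <;> linarith [h1.1, h1.2.1, h1.2.2, h2.1,
      h2.2.1, h2.2.2]

/-- the main case -/
theorem bad_main {i i' : Fin n} {j j' : Fin m} (hii : i ≠ i') (hjj : j < j')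
    (hN : T.N (ty p j.val) i = true) (hN' : T.N (ty p j'.val) i' = true)
    (hS : ¬ Sep (pnt T m (Sum.inl i)) (pnt T m (Sum.inr j)) (pnt T m (Sum.inl i'))
      (pnt T m (Sum.inr j'))) :
    (j, j') ∈ same p m C ∧ Rl T m (pr i j i' j') (j, j') := by
  have a1 := st_nonneg m j
  have a2 := st_nonneg m j'
  have a3 := (st_lt m j).le
  have a4 := (st_lt m j').le
  have hk : ty p j.val = ty p j'.val := by
    by_contra hk
    apply hS
    rcases hT.sp _ _ i i' hN hN' hk hii with h | h | h | h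
    · exact Or.inl ⟨ori_bw_pos h.1 a1 a3, ori_bb_pos h.2 a1 a3 a2 a4⟩
    · exact Or.inr (Or.inl ⟨ori_bw_neg h.1 a1 a3, ori_bb_neg h.2 a1 a3 a2 a4⟩)
    · exact Or.inr (Or.inr (Or.inl ⟨ori_bw_pos h.1 a2 a4, ori_bb_pos h.2 a2 a4 a1 a3⟩))
    · exact Or.inr (Or.inr (Or.inr ⟨ori_bw_neg h.1 a2 a4, ori_bb_neg h.2 a2 a4 a1 a3⟩))
  have hN2 : T.N (ty p j.val) i' = true := by rw [hk]; exact hN'
  set k := ty p j.val with hkdef
  set s : ℝ := (j.val : ℝ) / m with hs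
  set t : ℝ := (j'.val : ℝ) / m with ht
  have hst : s < t := st_mono m hjj
  set β : ℝ := ((T.b k).2 : ℝ) - (T.w i).2 with hβ
  set β' : ℝ := ((T.b k).2 : ℝ) - (T.w i').2 with hβ'
  have hβ0 : β ≠ 0 := beta_ne hT i k
  have hβ0' : β' ≠ 0 := beta_ne hT i' k
  set A : ℝ := ori (cp (T.w i)) (cps (T.b k) s) (cp (T.w i')) with hA
  set A' : ℝ := ori (cp (T.w i)) (cps (T.b k) t) (cp (T.w i')) with hA'
  have hAA : (0 < A ∧ 0 < A') ∨ (A < 0 ∧ A' < 0) := by
    rcases hT.ow _ i i' hN hii with h | h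
    · exact Or.inl ⟨ori_bw_pos h a1 a3, ori_bw_pos h a2 a4⟩
    · exact Or.inr ⟨ori_bw_neg h a1 a3, ori_bw_neg h a2 a4⟩
  have e1 : pnt T m (Sum.inr j') = cps (T.b k) t := by
    show cps (T.b (ty p j'.val)) _ = _
    rw [← hk]
  have o2 : ori (cp (T.w i)) (cps (T.b k) s) (cps (T.b k) t) = β * (s - t) := ori_same _ _ _ _
  have o4 : ori (cp (T.w i')) (cps (T.b k) t) (cps (T.b k) s) = β' * (t - s) := ori_same _ _ _ _
  have o3 : ori (cp (T.w i')) (cps (T.b k) t) (cp (T.w i)) = - A' := ori_rev _ _ _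
  have hS' : ¬ Sep (cp (T.w i)) (cps (T.b k) s) (cp (T.w i')) (cps (T.b k) t) := by
    rw [← e1]
    exact hS
  unfold Pool.Agent.H55.BP.Sep at hS'
  rw [o2, o3, o4, ← hA] at hS'
  push Not at hS'
  obtain ⟨c1, c2, c3, c4⟩ := hS'
  have hres : (0 < β ∧ 0 < β' ∧ 0 < A) ∨ (β < 0 ∧ β' < 0 ∧ A < 0) := by
    rcases hAA with ⟨h1, h2⟩ | ⟨h1, h2⟩
    · left
      refine ⟨?_, ?_, h1⟩
      · have h3 := c1 h1
        rcases lt_or_gt_of_ne hβ0 with h4 | h4
        · exfalso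
          have : 0 < β * (s - t) := mul_pos_of_neg_of_neg h4 (by linarith)
          linarith
        · exact h4
      · have h3 := c4 (by linarith)
        rcases lt_or_gt_of_ne hβ0' with h4 | h4
        · exfalso
          have : β' * (t - s) < 0 := mul_neg_of_neg_of_pos h4 (by linarith)
          linarith
        · exact h4
    · right
      refine ⟨?_, ?_, h1⟩
      · have h3 := c2 h1
        rcases lt_or_gt_of_ne hβ0 with h4 | h4
        · exact h4
        · exfalso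
          have : β * (s - t) < 0 := mul_neg_of_pos_of_neg h4 (by linarith)
          linarith
      · have h3 := c3 (by linarith)
        rcases lt_or_gt_of_ne hβ0' with h4 | h4
        · exact h4
        · exfalso
          have : 0 < β' * (t - s) := mul_pos h4 (by linarith)
          linarith
  have hkC : k ∈ C := by
    by_contra hkC
    exact hT.sc k i i' hkC hN hN2 hii
      (same_side hT (hres.imp (fun h => ⟨h.1, h.2.1⟩) (fun h => ⟨h.1, h.2.1⟩)))
  refine ⟨?_, i, i', hii, hN, hN2, rfl, hres⟩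
  unfold same
  rw [Finset.mem_filter]
  refine ⟨Finset.mem_univ _, hjj, ?_, hkC⟩
  have h1 := congrArg Fin.val hk
  exact h1

end template

theorem sep_swap1 {a b c d : ℂ} (h : Sep a b c d) : Sep b a c d := by
  unfold Pool.Agent.H55.BP.Sep at *
  rw [ori_swap a b c, ori_swap a b d]
  rcases h with h | h | h | h
  · exact Or.inr (Or.inl ⟨by linarith [h.1], by linarith [h.2]⟩)
  · exact Or.inl ⟨by linarith [h.1], by linarith [h.2]⟩
  · exact Or.inr (Or.inr (Or.inl ⟨h.2, h.1⟩))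
  · exact Or.inr (Or.inr (Or.inr ⟨h.2, h.1⟩))

theorem sep_comm {a b c d : ℂ} (h : Sep a b c d) : Sep c d a b := by
  unfold Pool.Agent.H55.BP.Sep at *
  rcases h with h | h | h | h
  · exact Or.inr (Or.inr (Or.inl h))
  · exact Or.inr (Or.inr (Or.inr h))
  · exact Or.inl h
  · exact Or.inr (Or.inl h)

theorem sep_swap2 {a b c d : ℂ} (h : Sep a b c d) : Sep a b d c :=
  sep_comm (sep_swap1 (sep_comm h))

/-- Normal form of the bad pairs of a bipartite graph. -/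
theorem bad_form {n m : ℕ} (A : Fin n → Fin m → Bool) (P : Fin n ⊕ Fin m → ℂ)
    {x : Sym2 (Sym2 (Fin n ⊕ Fin m))} (hx : x ∈ badPairs (BG A) P) :
    ∃ (i i' : Fin n) (j j' : Fin m), i ≠ i' ∧ j < j' ∧ A i j = true ∧ A i' j' = true ∧
      x = pr i j i' j' ∧
      ¬ Sep (P (Sum.inl i)) (P (Sum.inr j)) (P (Sum.inl i')) (P (Sum.inr j')) := by
  have key : ∃ (i i' : Fin n) (j j' : Fin m), i ≠ i' ∧ j ≠ j' ∧ A i j = true ∧ A i' j' = true ∧
      x = pr i j i' j' ∧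
      ¬ Sep (P (Sum.inl i)) (P (Sum.inr j)) (P (Sum.inl i')) (P (Sum.inr j')) := by
    obtain ⟨a, b, c, d, hab, hcd, h1, h2, h3, h4, rfl, hS⟩ := hx
    rcases hab with ⟨i, j, rfl, rfl, hA⟩ | ⟨i, j, rfl, rfl, hA⟩ <;>
      rcases hcd with ⟨i', j', rfl, rfl, hA'⟩ | ⟨i', j', rfl, rfl, hA'⟩
    · exact ⟨i, i', j, j', fun h => h1 (by rw [h]), fun h => h4 (by rw [h]), hA, hA', rfl, hS⟩
    · exact ⟨i, i', j, j', fun h => h2 (by rw [h]), fun h => h3 (by rw [h]), hA, hA',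
        by unfold pr; rw [Sym2.eq_swap (a := Sum.inr j')], fun h => hS (sep_swap2 h)⟩
    · exact ⟨i, i', j, j', fun h => h3 (by rw [h]), fun h => h2 (by rw [h]), hA, hA',
        by unfold pr; rw [Sym2.eq_swap (a := Sum.inr j)], fun h => hS (sep_swap1 h)⟩
    · exact ⟨i, i', j, j', fun h => h4 (by rw [h]), fun h => h1 (by rw [h]), hA, hA',
        by unfold pr; rw [Sym2.eq_swap (a := Sum.inr j), Sym2.eq_swap (a := Sum.inr j')],
        fun h => hS (sep_swap1 (sep_swap2 h))⟩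
  obtain ⟨i, i', j, j', h1, h2, h3, h4, h5, h6⟩ := key
  rcases lt_or_gt_of_ne h2 with h | h
  · exact ⟨i, i', j, j', h1, h, h3, h4, h5, h6⟩
  · exact ⟨i', i, j', j, h1.symm, h, h4, h3, by rw [h5]; unfold pr; rw [Sym2.eq_swap],
      fun h => h6 (sep_comm h)⟩

theorem pf_PRM (hSL : T_SL) : T_PRM := by
  intro n p _ T C hT m
  obtain ⟨D, hD⟩ := hSL (BG (T.adj m)) (pnt T m) (pnt_inj m hT) (by
    rintro u v x (⟨i, j, rfl, rfl, hA⟩ | ⟨i, j, rfl, rfl, hA⟩) h1 h2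
    · exact ori_ne_wb m hT i j hA x h1 h2
    · rw [ori_swap]
      exact neg_ne_zero.2 (ori_ne_wb m hT i j hA x h2 h1))
  refine ⟨D, hD.trans ?_⟩
  have key : ∀ x ∈ badPairs (BG (T.adj m)) (pnt T m), ∃ q ∈ same p m C, Rl T m x q := by
    intro x hx
    obtain ⟨i, i', j, j', h1, h2, h3, h4, rfl, h6⟩ := bad_form _ _ hx
    obtain ⟨h7, h8⟩ := bad_main m hT h1 h2 h3 h4 h6
    exact ⟨_, h7, h8⟩
  rcases isEmpty_or_nonempty (Fin m × Fin m) with hemp | hne
  · have h0 : badPairs (BG (T.adj m)) (pnt T m) = ∅ := by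
      ext x
      simp only [Set.mem_empty_iff_false, iff_false]
      intro hx
      obtain ⟨q, _, _⟩ := key x hx
      exact hemp.false q
    rw [h0, Set.ncard_empty]
    exact Nat.zero_le _
  choose! f hf1 hf2 using key
  have h1 := Set.ncard_le_ncard_of_injOn f (s := badPairs (BG (T.adj m)) (pnt T m))
    (t := (same p m C : Set (Fin m × Fin m))) (fun x hx => Finset.mem_coe.2 (hf1 x hx))
    (fun x hx y hy hxy => by
      have h2 := hf2 x hx
      rw [hxy] at h2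
      exact Rl_unique m hT h2 (hf2 y hy)) (Finset.finite_toSet _)
  rwa [Set.ncard_coe_finset] at h1

end Pool.Agent.H4.BPL
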